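import Pool.Agent.H61.MbB

set_option autoImplicit false

namespace Pool.Agent.Results.MP_e05153_nt.NoZero

open UpperHalfPlane ModularForm Pool.Agent.H61.MbA Pool.Agent.H61.MbB
open scoped MatrixGroups ComplexOrder

/-- the factor `E_{k'}` for `k' = 0, 4, 6, 8, 10, 14` -/
noncomputable def Ek (k' : ℕ) (τ : ℍ) : ℂ :=
  if k' = 0 then 1 else if k' = 4 then E₄ τ else if k' = 6 then E₆ τ else
  if k' = 8 then E₄ τ ^ 2 else if k' = 10 then E₄ τ * E₆ τ else E₄ τ ^ 2 * E₆ τ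

/-- the modular invariant -/
noncomputable def jj (τ : ℍ) : ℂ := E₄ τ ^ 3 / discriminant τ

lemma factor (k' : ℕ) {V : PowerSeries ℂ} (hV : V * qExpansion 1 E₆ = 1) (hP : PP V)
    (hN : N1 V) : ∃ E K : PowerSeries ℂ, Good (Ek k') E ∧ E * K = qExpansion 1 E₄ ^ 2 * V ∧
      PP K := by
  have g4 := good_mf E₄
  have g6 := good_mf E₆
  have hA := E4_N1
  unfold Ek
  split_ifs
  · exact ⟨1, _, good_one, one_mul _, (hA.pow 2).mulP hP⟩
  · exact ⟨_, qExpansion 1 E₄ * V, g4, by ring, hA.mulP hP⟩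
  · exact ⟨_, qExpansion 1 E₄ ^ 2 * V * V, g6,
      by linear_combination qExpansion 1 E₄ ^ 2 * V * hV, ((hA.pow 2).mul hN).mulP hP⟩
  · exact ⟨_, V, g4.pow 2, rfl, hP⟩
  · exact ⟨_, qExpansion 1 E₄ * V * V, g4.mul g6,
      by linear_combination qExpansion 1 E₄ ^ 2 * V * hV, (hA.mul hN).mulP hP⟩
  · exact ⟨_, V * V, (g4.pow 2).mul g6,
      by linear_combination qExpansion 1 E₄ ^ 2 * V * hV, hN.mulP hP⟩

theorem result (l k' m : ℕ) (_hk' : k' = 0 ∨ k' = 4 ∨ k' = 6 ∨ k' = 8 ∨ k' = 10 ∨ k' = 14)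
    (hm : m ≤ l) (f : ModularForm 𝒮ℒ ((12 * l + k' : ℕ) : ℤ))
    (hf : ∀ n ≤ l, (qExpansion 1 f).coeff n = if n = m then 1 else 0)
    (F : Polynomial ℂ) (hF : F.natDegree = l - m)
    (hfF : ∀ τ : ℍ, f τ = discriminant τ ^ l * Ek k' τ * F.eval (jj τ))
    (x : ℝ) (hx : 1728 ≤ x) : F.eval (x : ℂ) ≠ 0 := by
  set B := qExpansion 1 E₆ with hB
  have hBN : 1 - (1 - B) = B := by ring
  have hN : NN (1 - B) := fun n => by rw [hB, E6_coeff]; positivity
  have hN0 : PowerSeries.coeff 0 (1 - B) = 0 := by rw [hB, E6_coeff]; simp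
  have hN1 : 0 < PowerSeries.coeff 1 (1 - B) := by rw [hB, E6_coeff]; simp
  have hB0 : PowerSeries.constantCoeff B ≠ 0 := by
    rw [← PowerSeries.coeff_zero_eq_constantCoeff_apply, hB,
      EisensteinSeries.E_qExpansion_coeff_zero _ ⟨3, rfl⟩]
    exact one_ne_zero
  have hV : B⁻¹ * B = 1 := PowerSeries.inv_mul_cancel B hB0
  have hV' : B⁻¹ * (1 - (1 - B)) = 1 := by rw [hBN]; exact hV
  obtain ⟨hVP, hV0⟩ := Pool.Agent.H61.MbA.inv_pos hN hN0 hN1 hV'
  obtain ⟨E, K, hE, hEK, hK⟩ := factor k' hV hVP ⟨fun n => (hVP n).le, hV0⟩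
  set G := Polynomial.taylor (1728 : ℂ) F with hG
  have hGd : G.natDegree = l - m := by rw [hG, Polynomial.natDegree_taylor, hF]
  have hev : ∀ y : ℂ, F.eval y = ∑ r ∈ Finset.range (l - m + 1), G.coeff r * (y - 1728) ^ r := by
    intro y
    rw [← hGd, ← Polynomial.eval_eq_sum_range, hG, Polynomial.taylor_eval, sub_add_cancel]
  have hfun : (f : ℍ → ℂ) = ∑ r ∈ Finset.range (l - m + 1),
      G.coeff r • (Ek k' * (Dm : ℍ → ℂ) ^ (l - r) * (E₆ : ℍ → ℂ) ^ (2 * r)) := by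
    funext τ
    rw [hfF, hev, Finset.sum_apply, Finset.mul_sum]
    refine Finset.sum_congr rfl fun r hr => ?_
    have hr' : r ≤ l := by have := Finset.mem_range.1 hr; omega
    have h0 := discriminant_ne_zero τ
    have h1 : jj τ - 1728 = E₆ τ ^ 2 / discriminant τ := by
      unfold jj
      rw [eq_div_iff h0, sub_mul, div_mul_cancel₀ _ h0, discriminant_eq_E₄_cube_sub_E₆_sq]
      ring
    obtain ⟨t, rfl⟩ := Nat.exists_eq_add_of_le hr'
    simp only [Pi.smul_apply, Pi.mul_apply, Pi.pow_apply, smul_eq_mul, Dm_apply,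
      Nat.add_sub_cancel_left]
    rw [h1, div_pow, pow_add, pow_mul]
    field_simp
  have hgood := Good.sum (fun r => ((hE.mul ((good_mf Dm).pow (l - r))).mul
    ((good_mf E₆).pow (2 * r))).smul (G.coeff r)) (l - m + 1)
  rw [← hfun] at hgood
  have hD0 : PowerSeries.coeff 0 (qExpansion 1 Dm) = 0 := by
    have := discriminant_qExpansion_order
    exact PowerSeries.coeff_of_lt_order 0 (by erw [this]; norm_num)
  have hpos := formal E4_N1 hN hN0 hN1 MM_nn MM_zero hV' th_Dm hD0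
    discriminant_qExpansion_coeff_one (by rw [hBN]; exact ramanujan) hEK hK hm G.coeff
    (by rw [hBN]; exact hgood.2) hf
  rw [hev]
  have hy : (0 : ℂ) ≤ (x : ℂ) - 1728 := by
    have : ((x : ℂ) - 1728) = ((x - 1728 : ℝ) : ℂ) := by push_cast; rfl
    rw [this, Complex.zero_le_real]; linarith
  refine (Finset.sum_pos' (fun r hr => mul_nonneg (hpos r ?_).le (pow_nonneg hy r))
    ⟨0, by simp, ?_⟩).ne'
  · have := Finset.mem_range.1 hr; omega
  · simpa using hpos 0 (Nat.zero_le _)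

end Pool.Agent.Results.MP_e05153_nt.NoZero
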